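import Mathlib

namespace Pool.Agent.Results.MP_6850eb_nt.Disproof

/-- `s` is the sequence `s_a`: `s 1 = a`, `s (2k) = 2 s k + 2`, `s (2k+1) = 3 s k + 3`. -/
def IsSeq (a : ℤ) (s : ℕ → ℤ) : Prop :=
  s 1 = a ∧ (∀ k, 1 ≤ k → s (2 * k) = 2 * s k + 2) ∧ ∀ k, 1 ≤ k → s (2 * k + 1) = 3 * s k + 3

/-- An explicit sequence satisfying the recursion. -/
def seq (a : ℤ) (n : ℕ) : ℤ :=
  if n ≤ 1 then a else if n % 2 = 0 then 2 * seq a (n / 2) + 2 else 3 * seq a (n / 2) + 3
decreasing_by all_goals omega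

theorem seq_is (a : ℤ) : IsSeq a (seq a) := by
  refine ⟨by rw [seq]; simp, fun k hk => ?_, fun k hk => ?_⟩
  · rw [seq, if_neg (by omega), if_pos (by omega), show 2 * k / 2 = k by omega]
  · rw [seq, if_neg (by omega), if_neg (by omega), show (2 * k + 1) / 2 = k by omega]

theorem result : (∀ a, ∃ s, IsSeq a s) ∧
    (∀ s, IsSeq (-4) s → s 51 = s 128) ∧ (∀ s, IsSeq 3 s → s 2043 = s 21504) ∧
    ¬ ∀ (a : ℤ) (s : ℕ → ℤ), (a < -3 ∨ 2 < a) → IsSeq a s →
      ∀ m n, 1 ≤ m → 1 ≤ n → s m = s n → m = n := by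
  have A : ∀ s, IsSeq (-4) s → s 51 = s 128 := by
    rintro s ⟨h1, h2, h3⟩
    have a1 := h3 1 (by norm_num); have a2 := h2 3 (by norm_num); have a3 := h2 6 (by norm_num)
    have a4 := h3 12 (by norm_num); have a5 := h3 25 (by norm_num)
    have b1 := h2 1 (by norm_num); have b2 := h2 2 (by norm_num); have b3 := h2 4 (by norm_num)
    have b4 := h2 8 (by norm_num); have b5 := h2 16 (by norm_num); have b6 := h2 32 (by norm_num)
    have b7 := h2 64 (by norm_num)
    norm_num at *; omega
  refine ⟨fun a => ⟨_, seq_is a⟩, A, ?_, fun h => ?_⟩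
  · rintro s ⟨h1, h2, h3⟩
    have a1 := h3 1 (by norm_num); have a2 := h3 3 (by norm_num); have a3 := h3 7 (by norm_num)
    have a4 := h3 15 (by norm_num); have a5 := h3 31 (by norm_num); have a6 := h3 63 (by norm_num)
    have a7 := h3 127 (by norm_num); have a8 := h2 255 (by norm_num)
    have a9 := h3 510 (by norm_num); have a10 := h3 1021 (by norm_num)
    have b1 := h2 1 (by norm_num); have b2 := h3 2 (by norm_num); have b3 := h2 5 (by norm_num)
    have b4 := h3 10 (by norm_num); have b5 := h2 21 (by norm_num); have b6 := h2 42 (by norm_num)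
    have b7 := h2 84 (by norm_num); have b8 := h2 168 (by norm_num)
    have b9 := h2 336 (by norm_num); have b10 := h2 672 (by norm_num)
    have b11 := h2 1344 (by norm_num); have b12 := h2 2688 (by norm_num)
    have b13 := h2 5376 (by norm_num); have b14 := h2 10752 (by norm_num)
    norm_num at *; omega
  · have := h (-4) _ (by norm_num) (seq_is _) 51 128 (by norm_num) (by norm_num) (A _ (seq_is _))
    omega

end Pool.Agent.Results.MP_6850eb_nt.Disproof
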